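import Pool.Agent.H93.AR.Defs

/-!
Local smoothing with one angular derivative: targets of part D (from the restricted type estimate
for `T A_L²` to the theorem).
-/

set_option autoImplicit false

namespace Pool.Agent.H93.AR

open MeasureTheory Set FourierTransform Pool.Agent.H83.LS Pool.Agent.H54.LS
open scoped ENNReal NNReal SchwartzMap

/-- MAL: restricted type estimate after two angular averages at scale `1/L`, `L² ≤ λ` -/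
def T_MAL : Prop := ∀ (n : ℕ) (p η : ℝ), 2 ≤ n → 2 < p → p ≤ 2 + 2 / (n : ℝ) → 0 < η →
  ∃ C : ℝ≥0, ∀ (lam L A : ℝ) (f : EE (n + 1) → ℂ), 1 ≤ L → L ^ 2 ≤ lam → BCd A f →
  ∫⁻ t in Icc (1 : ℝ) 2, ∫⁻ x, ‖MM (mT lam t) (AL L (AL L f)) x‖ₑ ^ p ≤
    C * ENNReal.ofReal (lam ^ η * L ^ 2 * A ^ (p - 2)) * ∫⁻ x, ‖f x‖ₑ ^ 2

/-- SG: strong type after two angular averages at scale `1/L` -/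
def T_SG : Prop := ∀ (n : ℕ) (p η : ℝ), 2 ≤ n → 2 + 2 / (n : ℝ) ≤ p → 0 < η →
  ∃ C : ℝ≥0, ∀ (lam L : ℝ) (f : EE (n + 1) → ℂ), 1 ≤ L → L ^ 2 ≤ lam → Measurable f →
  Integrable f → (∃ A : ℝ, ∀ x, ‖f x‖ ≤ A) →
  ∫⁻ t in Icc (1 : ℝ) 2, ∫⁻ x, ‖MM (mT lam t) (AL L (AL L f)) x‖ₑ ^ p ≤
    C * ENNReal.ofReal (lam ^ ((n : ℝ) * (p / 2 - 1) - 1 + η) * L ^ 2) * ∫⁻ x, ‖f x‖ₑ ^ p

/-- FX: the trivial estimate (fixed times) -/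
def T_FX : Prop := ∀ (n : ℕ) (p η : ℝ), 1 ≤ n → 2 < p → 0 < η →
  ∃ C : ℝ≥0, ∀ (lam : ℝ) (f : EE (n + 1) → ℂ), 1 ≤ lam → Measurable f →
  Integrable f → (∃ A : ℝ, ∀ x, ‖f x‖ ≤ A) →
  ∫⁻ t in Icc (1 : ℝ) 2, ∫⁻ x, ‖MM (mT lam t) f x‖ₑ ^ p ≤
    C * ENNReal.ofReal (lam ^ ((n : ℝ) * (p / 2 - 1) + η)) * ∫⁻ x, ‖f x‖ₑ ^ p

/-- BL1: one dyadic block; `B₀` bounds the function, `B₁ ≥ B₀` its derivatives along rotations;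
the fraction `2/p` of an angular derivative is used -/
def T_BL1 : Prop := ∀ (n : ℕ) (p η : ℝ), 2 ≤ n → 2 + 2 / (n : ℝ) ≤ p → 0 < η →
  ∃ C : ℝ≥0, ∀ (lam : ℝ) (f : 𝓢(EE (n + 1), ℂ)) (B₀ B₁ : ℝ≥0∞), 1 ≤ lam → B₀ ≤ B₁ →
  ∫⁻ x, ‖f x‖ₑ ^ p ≤ B₀ → (∀ i j : Fin n, ∫⁻ x, ‖rot i j f x‖ₑ ^ p ≤ B₁) →
  ∫⁻ t in Icc (1 : ℝ) 2, ∫⁻ x, ‖MM (mT lam t) f x‖ₑ ^ p ≤
    C * ENNReal.ofReal (lam ^ ((n : ℝ) * (p / 2 - 1) - 1 + η)) *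
      (B₀ ^ (1 - 2 / p) * B₁ ^ (2 / p))

/-- HG1: one dyadic block with Bessel potentials -/
def T_HG1 : Prop := ∀ (n : ℕ) (p r η : ℝ), 2 ≤ n → 2 + 2 / (n : ℝ) ≤ p → 0 < η →
  ∃ C : ℝ≥0, ∀ (lam : ℝ) (u : 𝓢(EE (n + 1), ℂ)) (B₀ B₁ : ℝ≥0∞), 1 ≤ lam → B₀ ≤ B₁ →
  ∫⁻ x, ‖besS r u x‖ₑ ^ p ≤ B₀ → (∀ i j : Fin n, ∫⁻ x, ‖besS r (rot i j u) x‖ₑ ^ p ≤ B₁) →
  (∫⁻ t in Icc (1 : ℝ) 2, ∫⁻ x, ‖MM (fun ξ => ((Real.cos (2 * Real.pi * t * ‖ξ‖) *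
      chi (‖ξ‖ / lam) : ℝ) : ℂ)) u x‖ₑ ^ p ≤
    C * ENNReal.ofReal (lam ^ ((n : ℝ) * (p / 2 - 1) - 1 - p * r + η)) *
      (B₀ ^ (1 - 2 / p) * B₁ ^ (2 / p))) ∧
  (∫⁻ t in Icc (1 : ℝ) 2, ∫⁻ x, ‖MM (fun ξ => ((Real.sin (2 * Real.pi * t * ‖ξ‖) /
      (2 * Real.pi * ‖ξ‖) * chi (‖ξ‖ / lam) : ℝ) : ℂ)) u x‖ₑ ^ p ≤
    C * ENNReal.ofReal (lam ^ ((n : ℝ) * (p / 2 - 1) - 1 - p * (r + 1) + η)) *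
      (B₀ ^ (1 - 2 / p) * B₁ ^ (2 / p)))

/-- FN1: the theorem, `N₀ ≤ N₁` norms of the data and of their derivatives along rotations -/
def T_FN1 : Prop := ∀ (n : ℕ) (p σ : ℝ), 2 ≤ n → 2 + 2 / (n : ℝ) ≤ p → σ < 1 / p →
  ∃ C : ℝ≥0, ∀ (u₀ u₁ : 𝓢(EE (n + 1), ℂ)) (N₀ N₁ : ℝ≥0∞), N₀ ≤ N₁ →
  eLpNorm (besS ((n : ℝ) / 2 - n / p - σ) u₀) (ENNReal.ofReal p) volume +
    eLpNorm (besS ((n : ℝ) / 2 - n / p - 1 - σ) u₁) (ENNReal.ofReal p) volume ≤ N₀ →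
  (∀ i j : Fin n,
    eLpNorm (besS ((n : ℝ) / 2 - n / p - σ) (rot i j u₀)) (ENNReal.ofReal p) volume +
    eLpNorm (besS ((n : ℝ) / 2 - n / p - 1 - σ) (rot i j u₁)) (ENNReal.ofReal p) volume ≤ N₁) →
  (∫⁻ t in Icc (1 : ℝ) 2, eLpNorm (fun x => cosS u₀ t x + sinS u₁ t x) (ENNReal.ofReal p)
    volume ^ p) ^ (1 / p) ≤ (C : ℝ≥0∞) * (N₀ ^ (1 - 2 / p) * N₁ ^ (2 / p))

end Pool.Agent.H93.AR
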