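import Pool.Agent.H83.AR.Defs2
import Pool.Agent.H84.BR.Stmt

/-!
Angular averages on `ℝ^(a+b)`, in the second block (`A2`) and in the first block (`A1`).
-/

set_option autoImplicit false

namespace Pool.Agent.H93.AR

open MeasureTheory Set FourierTransform Pool.Agent.H83.LS Pool.Agent.H54.LS Pool.Agent.H83.AR
  Pool.Agent.H84.BR
open scoped ENNReal NNReal SchwartzMap

/-- JB: the splitting `ℝ^(a+b) = ℝ^a × ℝ^b` -/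
def T_JB : Prop := ∀ a b : ℕ,
  MeasurePreserving (fun q : EE a × EE b => jm a b q.1 q.2) (volume.prod volume) volume ∧
  Continuous (fun q : EE a × EE b => jm a b q.1 q.2) ∧
  Continuous (p1 a b) ∧ Continuous (p2 a b) ∧
  (∀ (y : EE a) (z : EE b), p1 a b (jm a b y z) = y ∧ p2 a b (jm a b y z) = z) ∧
  (∀ x : EE (a + b), jm a b (p1 a b x) (p2 a b x) = x) ∧
  (∀ x y : EE (a + b), inner ℝ x y = inner ℝ (p1 a b x) (p1 a b y) +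
    inner ℝ (p2 a b x) (p2 a b y)) ∧
  MeasurePreserving (sw a b) volume volume ∧ (∀ x, sw b a (sw a b x) = x) ∧
  (∀ x, p1 b a (sw a b x) = p2 a b x ∧ p2 b a (sw a b x) = p1 a b x)

/-- AS: the average in the first block is the average in the second block after the exchange -/
def T_AS : Prop := ∀ (a b : ℕ) (L : ℝ) (f : EE (a + b) → ℂ) (x : EE (a + b)),
  A1 a b L f x = A2 b a L (fun y => f (sw b a y)) (sw a b x)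

/-- properties shared by the two averages; `nr x` is the norm of the averaged block and `ot x` the
other block -/
def avp (d m : ℕ) (A : (EE d → ℂ) → EE d → ℂ) (nr : EE d → ℝ) (ot : EE d → EE m) : Prop :=
  (∀ f : EE d → ℂ, Measurable f → Measurable (A f)) ∧
  (∀ (f : EE d → ℂ) (B : ℝ), Measurable f → (∀ x, ‖f x‖ ≤ B) → ∀ x, ‖A f x‖ ≤ B) ∧
  (∀ (f : EE d → ℂ) (p : ℝ), Measurable f → 1 ≤ p →
    ∫⁻ x, ‖A f x‖ₑ ^ p ≤ ∫⁻ x, ‖f x‖ₑ ^ p) ∧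
  (∀ f : EE d → ℂ, Measurable f → Integrable f → Integrable (A f)) ∧
  (∀ (f : EE d → ℂ) (c : ℝ → EE m → ℂ) (x : EE d),
    A (fun x => c (nr x) (ot x) * f x) x = c (nr x) (ot x) * A f x) ∧
  (∀ f g : EE d → ℂ, Measurable f → Measurable g → (∃ B : ℝ, ∀ x, ‖f x‖ ≤ B) →
    (∃ B : ℝ, ∀ x, ‖g x‖ ≤ B) → ∀ x, A (fun x => f x - g x) x = A f x - A g x) ∧
  (∀ f : EE d → ℂ, Measurable f → Integrable f → (∃ B : ℝ, ∀ x, ‖f x‖ ≤ B) →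
    ∀ ξ, 𝓕 (A f) ξ = A (𝓕 f) ξ)

/-- AM2: the averages in the second block and in the first block -/
def T_AM2 : Prop := ∀ (a b : ℕ) (L : ℝ), 1 ≤ b → 1 ≤ L →
  avp (a + b) a (A2 a b L) (fun x => ‖p2 a b x‖) (p1 a b)

/-- AM1 -/
def T_AM1 : Prop := ∀ (a b : ℕ) (L : ℝ), 1 ≤ a → 1 ≤ L →
  avp (a + b) b (A1 a b L) (fun x => ‖p1 a b x‖) (p2 a b)

/-- AC2: all averages commute -/
def T_AC2 : Prop := ∀ (a b : ℕ) (L L' : ℝ) (f : EE (a + b) → ℂ), 1 ≤ a → 1 ≤ b → 1 ≤ L →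
  1 ≤ L' → Measurable f → (∃ B : ℝ, ∀ x, ‖f x‖ ≤ B) → ∀ x,
  A2 a b L (A2 a b L' f) x = A2 a b L' (A2 a b L f) x ∧
  A1 a b L (A1 a b L' f) x = A1 a b L' (A1 a b L f) x ∧
  A1 a b L (A2 a b L' f) x = A2 a b L' (A1 a b L f) x

/-- AD2: distance of a function from its average -/
def T_AD2 : Prop := ∀ (a b : ℕ) (p : ℝ), 1 ≤ a → 1 ≤ b → 1 ≤ p → ∃ C : ℝ≥0, ∀ (L : ℝ)
  (f : 𝓢(EE (a + b), ℂ)), 1 ≤ L →
  (∫⁻ x, ‖f x - A2 a b L f x‖ₑ ^ p ≤ C * ENNReal.ofReal (L ^ (-p)) *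
    ∑ i : Fin b, ∑ j : Fin b, ∫⁻ x, ‖rotd (Fin.natAdd a i) (Fin.natAdd a j) f x‖ₑ ^ p) ∧
  (∫⁻ x, ‖f x - A1 a b L f x‖ₑ ^ p ≤ C * ENNReal.ofReal (L ^ (-p)) *
    ∑ i : Fin a, ∑ j : Fin a, ∫⁻ x, ‖rotd (Fin.castAdd b i) (Fin.castAdd b j) f x‖ₑ ^ p)

/-- AQP: four averages at once -/
def T_AQP : Prop := ∀ (a b : ℕ) (L : ℝ), 1 ≤ a → 1 ≤ b → 1 ≤ L →
  (∀ f : EE (a + b) → ℂ, Measurable f → Measurable (AQ a b L f)) ∧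
  (∀ (f : EE (a + b) → ℂ) (B : ℝ), Measurable f → (∀ x, ‖f x‖ ≤ B) → ∀ x,
    ‖AQ a b L f x‖ ≤ B) ∧
  (∀ (f : EE (a + b) → ℂ) (p : ℝ), Measurable f → 1 ≤ p →
    ∫⁻ x, ‖AQ a b L f x‖ₑ ^ p ≤ ∫⁻ x, ‖f x‖ₑ ^ p) ∧
  (∀ f : EE (a + b) → ℂ, Measurable f → Integrable f → Integrable (AQ a b L f)) ∧
  (∀ (f : EE (a + b) → ℂ) (c : ℝ → ℝ → ℂ), Measurable f → (∃ B : ℝ, ∀ x, ‖f x‖ ≤ B) →
    ∀ x, AQ a b L (fun x => c ‖p1 a b x‖ ‖p2 a b x‖ * f x) x =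
      c ‖p1 a b x‖ ‖p2 a b x‖ * AQ a b L f x) ∧
  (∀ f g : EE (a + b) → ℂ, Measurable f → Measurable g → (∃ B : ℝ, ∀ x, ‖f x‖ ≤ B) →
    (∃ B : ℝ, ∀ x, ‖g x‖ ≤ B) → ∀ x, AQ a b L (fun x => f x - g x) x =
      AQ a b L f x - AQ a b L g x) ∧
  (∀ f : EE (a + b) → ℂ, Measurable f → Integrable f → (∃ B : ℝ, ∀ x, ‖f x‖ ≤ B) →
    ∀ ξ, 𝓕 (AQ a b L f) ξ = AQ a b L (𝓕 f) ξ) ∧
  (∀ (f : EE (a + b) → ℂ) (L' : ℝ), 1 ≤ L' → Measurable f → (∃ B : ℝ, ∀ x, ‖f x‖ ≤ B) →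
    ∀ x, AQ a b L (AQ a b L' f) x = AQ a b L' (AQ a b L f) x) ∧
  (∀ (f : EE (a + b) → ℂ) (p : ℝ), Measurable f → (∃ B : ℝ, ∀ x, ‖f x‖ ≤ B) → 1 ≤ p →
    ∫⁻ x, ‖f x - AQ a b L f x‖ₑ ^ p ≤ ENNReal.ofReal ((4 : ℝ) ^ p) *
      (∫⁻ x, ‖f x - A2 a b L f x‖ₑ ^ p + ∫⁻ x, ‖f x - A1 a b L f x‖ₑ ^ p))

end Pool.Agent.H93.AR
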