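import Pool.Agent.H54.LS.Sph

/-!
Local smoothing for all data with one derivative along the rotations about an axis:
angular averages on `ℝ^(n+1)` and the transplantation kernel on the sphere.
-/

set_option autoImplicit false

namespace Pool.Agent.H93.AR

open MeasureTheory Set FourierTransform Pool.Agent.H83.LS Pool.Agent.H54.LS
open scoped ENNReal NNReal SchwartzMap

/-- normalizing constant of the bump -/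
noncomputable def bc (n : ℕ) : ℝ := (∫ y : EE n, eta0 (4 * ‖y‖))⁻¹

/-- smooth bump of integral `1`, supported in `|y| ≤ 1/(2L)` -/
noncomputable def bump (n : ℕ) (L : ℝ) (y : EE n) : ℝ := bc n * L ^ n * eta0 (4 * (L * ‖y‖))

/-- zonal kernel at scale `1/L`: density of the law of `(u+y)/|u+y|`, `y` with density `bump` -/
noncomputable def zk (n : ℕ) (L : ℝ) (u v : EE n) : ℝ :=
  ∫ t in Ioi (0 : ℝ), bump n L (t • v - u) * t ^ (n - 1)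

/-- angular average at scale `1/L` in the first `n` coordinates -/
noncomputable def AL {n : ℕ} (L : ℝ) (f : EE (n + 1) → ℂ) (x : EE (n + 1)) : ℂ :=
  ∫ w : Sp n, ((zk n L ((hor x)⁻¹ • pr x) (w : EE n) : ℝ) : ℂ) *
    f (jo (hor x • (w : EE n)) (x (Fin.last n))) ∂(sg n)

/-- the transplantation kernel composed with the angular average -/
noncomputable def kz (n : ℕ) (L : ℝ) (χ : ℝ → ℂ) (x ρ : ℝ) (u v : EE n) : ℂ :=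
  ∫ s in Ioi (0 : ℝ), e (x * s) * χ s * (((ρ * s) ^ (((n : ℝ) - 1) / 2) : ℝ) : ℂ) *
    ∫ w : Sp n, e (-(ρ * s * inner ℝ u (w : EE n))) * ((zk n L (w : EE n) v : ℝ) : ℂ) ∂(sg n)

/-- amplitudes `g(s,x)` on `ℝ × ℝ^n` supported in `1/8 ≤ s ≤ 8`, smooth at scale `δ` near the unit
sphere (within `δ/4`), with derivatives up to order `M` bounded by `B` -/
def SA (n M : ℕ) (δ B : ℝ) (g : ℝ × EE n → ℂ) : Prop :=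
  ContDiff ℝ (⊤ : ℕ∞) g ∧ (∀ q, g q ≠ 0 → 1 / 8 ≤ q.1 ∧ q.1 ≤ 8) ∧
  ∀ ζ : EE n, ‖ζ‖ = 1 → ∀ k ≤ M, ∀ q : ℝ × EE n, ‖q.2‖ ≤ 1 / 4 →
    ‖iteratedFDeriv ℝ k (fun q : ℝ × EE n => g (q.1, ζ + δ • q.2)) q‖ ≤ B

/-- oscillatory integral over the sphere -/
noncomputable def osc (n : ℕ) (g : ℝ × EE n → ℂ) (X R : ℝ) (u : EE n) : ℂ :=
  ∫ s : ℝ, ∫ w : Sp n, e (s * (X - R * inner ℝ u (w : EE n))) * g (s, (w : EE n)) ∂(sg n)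

/-! ### the zonal kernel -/

/-- ZB: basic properties of the zonal kernel (on unit vectors) -/
def T_ZB : Prop := ∀ n : ℕ, 1 ≤ n → ∃ C : ℝ, ∀ L : ℝ, 1 ≤ L →
  (Measurable fun q : EE n × EE n => zk n L q.1 q.2) ∧
  (ContinuousOn (fun q : EE n × EE n => zk n L q.1 q.2) {q | q.2 ≠ 0}) ∧
  (∀ u v : EE n, 0 ≤ zk n L u v) ∧
  (∀ u v : EE n, ‖u‖ = 1 → ‖v‖ = 1 → zk n L u v ≤ C * L ^ (n - 1)) ∧
  (∀ u v : EE n, ‖u‖ = 1 → ‖v‖ = 1 → zk n L u v = zk n L v u) ∧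
  (∀ u v : EE n, ‖u‖ = 1 → ‖v‖ = 1 → zk n L u v ≠ 0 → ‖u - v‖ ≤ 1 / L) ∧
  (∀ (Q : EE n ≃ₗᵢ[ℝ] EE n) (u v : EE n), zk n L (Q u) (Q v) = zk n L u v)

/-- ZP: the zonal kernel as a density; also for `u = 0` -/
def T_ZP : Prop := ∀ (n : ℕ) (L : ℝ) (u : EE n) (h : EE n → ℝ≥0∞), 1 ≤ n → 0 < L → Measurable h →
  ∫⁻ w : Sp n, ENNReal.ofReal (zk n L u w) * h w ∂(sg n) =
    ∫⁻ y : EE n, ENNReal.ofReal (bump n L y) * h (‖u + y‖⁻¹ • (u + y))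

/-- ZN: mass of the zonal kernel -/
def T_ZN : Prop := ∀ (n : ℕ) (L : ℝ) (u : EE n), 1 ≤ n → 1 ≤ L → (u = 0 ∨ ‖u‖ = 1) →
  ∫⁻ w : Sp n, ENNReal.ofReal (zk n L u w) ∂(sg n) = 1

/-- SI: invariance of the surface measure -/
def T_SI : Prop := ∀ (n : ℕ) (Q : EE n ≃ₗᵢ[ℝ] EE n), 1 ≤ n →
  (∀ h : EE n → ℝ≥0∞, Measurable h →
    ∫⁻ w : Sp n, h (Q w) ∂(sg n) = ∫⁻ w : Sp n, h w ∂(sg n)) ∧
  (∀ h : EE n → ℂ, Measurable h → (∃ A : ℝ, ∀ x, ‖h x‖ ≤ A) →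
    ∫ w : Sp n, h (Q w) ∂(sg n) = ∫ w : Sp n, h w ∂(sg n))

/-- ZC: invariant symmetric kernels commute -/
def T_ZC : Prop := ∀ (n : ℕ) (k₁ k₂ : EE n → EE n → ℂ), 1 ≤ n →
  (∀ (Q : EE n ≃ₗᵢ[ℝ] EE n) (u v : EE n), k₁ (Q u) (Q v) = k₁ u v ∧ k₂ (Q u) (Q v) = k₂ u v) →
  (∀ u v : EE n, ‖u‖ = 1 → ‖v‖ = 1 → k₁ u v = k₁ v u ∧ k₂ u v = k₂ v u) →
  ∀ u v : EE n, ‖u‖ = 1 → ‖v‖ = 1 →
    ∫ w : Sp n, k₁ u w * k₂ w v ∂(sg n) = ∫ w : Sp n, k₂ u w * k₁ w v ∂(sg n)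

/-- SBL: integrals over caps of the sphere -/
def T_SBL : Prop := ∀ n : ℕ, 1 ≤ n → ∃ C : ℝ, 0 < C ∧ ∀ (ρ : ℝ) (u : EE n), 1 ≤ ρ → ‖u‖ = 1 →
  (∫⁻ w : Sp n, ENNReal.ofReal (((1 + ρ * ‖u - w‖) ^ (n + 1))⁻¹) ∂(sg n) ≤
    ENNReal.ofReal (C * (ρ ^ (n - 1))⁻¹)) ∧
  ENNReal.ofReal (C⁻¹ * (ρ ^ (n - 1))⁻¹) ≤ sg n {w : Sp n | ‖u - w‖ ≤ 1 / (8 * ρ)} ∧
  sg n {w : Sp n | ‖u - w‖ ≤ 1 / ρ} ≤ ENNReal.ofReal (C * (ρ ^ (n - 1))⁻¹)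

/-! ### oscillatory integrals over the sphere -/

/-- DK: Fourier transform of a compactly supported function with `M` bounded derivatives -/
def T_DK : Prop := ∀ (d N : ℕ) (r : ℝ), ∃ (M : ℕ) (C : ℝ), ∀ (B : ℝ) (Ψ : EE d → ℂ),
  ContDiff ℝ (⊤ : ℕ∞) Ψ → (∀ x, r < ‖x‖ → Ψ x = 0) →
  (∀ k ≤ M, ∀ x, ‖iteratedFDeriv ℝ k Ψ x‖ ≤ B) → ∀ x : EE d, ‖MK Ψ x‖ * (1 + ‖x‖) ^ N ≤ C * B

/-- CP: derivatives of smooth functions are bounded, uniformly over compact sets of parameters -/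
def T_CP : Prop := ∀ (P E F : Type) [NormedAddCommGroup P] [NormedSpace ℝ P]
  [NormedAddCommGroup E] [NormedSpace ℝ E] [NormedAddCommGroup F] [NormedSpace ℝ F] (k : ℕ)
  (Ψ : P × E → F) (O K : Set (P × E)), IsOpen O → ContDiffOn ℝ (⊤ : ℕ∞) Ψ O → IsCompact K →
  K ⊆ O → ∃ C : ℝ, ∀ q ∈ K, ‖iteratedFDeriv ℝ k (fun x => Ψ (q.1, x)) q.2‖ ≤ C

/-- GN: the gnomonic chart -/
def T_GN : Prop := ∀ (m : ℕ) (f : EE (m + 1) → ℂ), Measurable f → (∃ A : ℝ, ∀ x, ‖f x‖ ≤ A) →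
  (∀ x : EE (m + 1), x (Fin.last m) ≤ 0 → f x = 0) →
  ∫ w : Sp (m + 1), f w ∂(sg (m + 1)) =
    ∫ z : EE m, f ((Real.sqrt (1 + ‖z‖ ^ 2))⁻¹ • jo z 1) *
      (((Real.sqrt (1 + ‖z‖ ^ 2) ^ (m + 1))⁻¹ : ℝ) : ℂ)

/-- BU: one bump of angular size `R^(-1/2)` -/
def T_BU : Prop := ∀ n N : ℕ, 2 ≤ n → ∃ (M : ℕ) (C : ℝ), ∀ (g : ℝ × EE n → ℂ) (δ B X R : ℝ)
  (u ζ : EE n), SA n M δ B g → 1 ≤ R → 1 / Real.sqrt R ≤ δ → ‖u‖ = 1 → ‖ζ‖ = 1 →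
  ‖osc n (fun q => g q * ((eta0 (8 * (Real.sqrt R * ‖q.2 - ζ‖)) : ℝ) : ℂ)) X R u‖ ≤
    C * B * (Real.sqrt R ^ (n - 1))⁻¹ * ((1 + |X - R * inner ℝ u ζ|) ^ N)⁻¹ *
      ((1 + Real.sqrt R * ‖u - (inner ℝ u ζ) • ζ‖) ^ N)⁻¹

/-- KS: oscillatory integrals over the sphere; `Dp`, `Dm` are the distances of the support of the
amplitude from the critical points `u`, `-u` -/
def T_KS : Prop := ∀ n N : ℕ, 2 ≤ n → ∃ (M : ℕ) (C : ℝ), ∀ (g : ℝ × EE n → ℂ)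
  (δ B X R Dp Dm : ℝ) (u : EE n), SA n M δ B g → 1 ≤ R → 1 / Real.sqrt R ≤ δ → ‖u‖ = 1 →
  0 ≤ Dp → 0 ≤ Dm →
  (∀ (s : ℝ) (w : EE n), ‖w‖ = 1 → g (s, w) ≠ 0 → Dp ≤ ‖w - u‖ ∧ Dm ≤ ‖w + u‖) →
  ‖osc n g X R u‖ ≤ C * B * (Real.sqrt R ^ (n - 1))⁻¹ *
    (((1 + |X - R|) ^ N)⁻¹ * ((1 + Real.sqrt R * Dp) ^ N)⁻¹ +
      ((1 + |X + R|) ^ N)⁻¹ * ((1 + Real.sqrt R * Dm) ^ N)⁻¹)

/-- ZA: the zonal kernel is an amplitude at scale `1/L` -/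
def T_ZA : Prop := ∀ n M : ℕ, 2 ≤ n → ∃ (M' : ℕ) (C : ℝ), ∀ (χ : ℝ → ℂ) (B L : ℝ) (v : EE n),
  CB M' B χ → 1 ≤ L → ‖v‖ = 1 →
  SA n M (1 / L) (C * B * L ^ (n - 1))
    (fun q => χ q.1 * (((|q.1|) ^ (((n : ℝ) - 1) / 2) : ℝ) : ℂ) * ((zk n L q.2 v : ℝ) : ℂ))

/-- KZ: the transplantation kernel composed with the angular average -/
def T_KZ : Prop := ∀ n N : ℕ, 2 ≤ n → ∃ (M : ℕ) (C : ℝ), ∀ (χ : ℝ → ℂ) (B L x ρ : ℝ) (u v : EE n),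
  CB M B χ → 1 ≤ L → L ^ 2 ≤ ρ → ‖u‖ = 1 → ‖v‖ = 1 →
  ‖kz n L χ x ρ u v‖ ≤ C * B * L ^ (n - 1) *
    (((1 + |x - ρ|) ^ N)⁻¹ * ((1 + L * ‖u - v‖) ^ N)⁻¹ +
      ((1 + |x + ρ|) ^ N)⁻¹ * ((1 + L * ‖u + v‖) ^ N)⁻¹)

/-! ### the angular averages -/

/-- AM: elementary properties of the angular average -/
def T_AM : Prop := ∀ (n : ℕ) (L : ℝ), 1 ≤ n → 1 ≤ L →
  (∀ f : EE (n + 1) → ℂ, Measurable f → Measurable (AL L f)) ∧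
  (∀ (f : EE (n + 1) → ℂ) (A : ℝ), Measurable f → (∀ x, ‖f x‖ ≤ A) → ∀ x, ‖AL L f x‖ ≤ A) ∧
  (∀ (f : EE (n + 1) → ℂ) (p : ℝ), Measurable f → 1 ≤ p →
    ∫⁻ x, ‖AL L f x‖ₑ ^ p ≤ ∫⁻ x, ‖f x‖ₑ ^ p) ∧
  (∀ f : EE (n + 1) → ℂ, Measurable f → Integrable f → Integrable (AL L f)) ∧
  (∀ (f : EE (n + 1) → ℂ) (c : ℝ → ℝ → ℂ) (x : EE (n + 1)),
    AL L (fun x => c (hor x) (x (Fin.last n)) * f x) x =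
      c (hor x) (x (Fin.last n)) * AL L f x) ∧
  (∀ f g : EE (n + 1) → ℂ, Measurable f → Measurable g → (∃ A : ℝ, ∀ x, ‖f x‖ ≤ A) →
    (∃ A : ℝ, ∀ x, ‖g x‖ ≤ A) → ∀ x, AL L (fun x => f x - g x) x = AL L f x - AL L g x)

/-- AF: the angular average commutes with the Fourier transform -/
def T_AF : Prop := ∀ (n : ℕ) (L : ℝ) (f : EE (n + 1) → ℂ), 1 ≤ n → 1 ≤ L → Measurable f →
  Integrable f → (∃ A : ℝ, ∀ x, ‖f x‖ ≤ A) → ∀ ξ, 𝓕 (AL L f) ξ = AL L (𝓕 f) ξ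

/-- AC: angular averages commute -/
def T_AC : Prop := ∀ (n : ℕ) (L L' : ℝ) (f : EE (n + 1) → ℂ), 1 ≤ n → 1 ≤ L → 1 ≤ L' →
  Measurable f → (∃ A : ℝ, ∀ x, ‖f x‖ ≤ A) → ∀ x, AL L (AL L' f) x = AL L' (AL L f) x

/-- AD: distance of a function from its angular average -/
def T_AD : Prop := ∀ (n : ℕ) (p : ℝ), 1 ≤ n → 1 ≤ p → ∃ C : ℝ≥0, ∀ (L : ℝ)
  (f : 𝓢(EE (n + 1), ℂ)), 1 ≤ L →
  ∫⁻ x, ‖f x - AL L f x‖ₑ ^ p ≤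
    C * ENNReal.ofReal (L ^ (-p)) * ∑ i : Fin n, ∑ j : Fin n, ∫⁻ x, ‖rot i j f x‖ₑ ^ p

end Pool.Agent.H93.AR
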